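import Mathlib

/-!
# The maximum number of maximal isotropic spaces of an alternating matrix space

We prove `M(n,q) = q^(n²/8 + O(n))`: for every finite field with `q` elements and every `n`,
`q^((n²-1)/8) ≤ M(n,q) ≤ 20 q^((n+1)²/8)`, and for `n = 2m` even
`q^(m(m+1)/2) ≤ M(n,q) ≤ 20 q^(1/8) q^(m(m+1)/2)`.
More precisely an alternating matrix space in `Λ(n,q)` has at most `4 q^((d+1)(n-d)/2)` maximal
isotropic spaces of dimension `d`.

Idea of the upper bound.  A maximal isotropic `U` satisfies `U^⊥ = U`.  Choose vectors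
`u_1, …, u_d` one after the other, each uniformly in the common orthogonal `P_i` of the previous
ones; a given ordered basis `u` of `U` appears with probability `∏ 1/|P_i(u)|`.  If `u'` is the
reversed basis then `P_i(u) ∩ P_{d-i}(u') = U^⊥ = U`, so
`dim P_i(u) + dim P_{d-i}(u') ≤ n + d`, and the product of the two probabilities is at least
`q^(-2d² - (d+1)(n-d))`.  Summing over all ordered bases of all `U` gives the bound.
-/

open Finset

set_option linter.unusedSectionVars false

namespace Pool.Agent.Results.MP_cd3971_co.ExponentEighth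

section Abstract

variable {F V : Type*} [Field F] [Fintype F] [AddCommGroup V] [Module F V] [Fintype V]

/-- Weight of a tuple: the probability of choosing it when each new vector is chosen uniformly in
the common orthogonal of the previous ones. -/
noncomputable def wt (p : V → Submodule F V) : (k : ℕ) → Submodule F V → (Fin k → V) → ℝ
  | 0, _, _ => 1
  | k + 1, P, u => by
      classical
      exact if u 0 ∈ P then (1 / (Nat.card P : ℝ)) * wt p k (P ⊓ p (u 0)) (Fin.tail u) else 0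

theorem wt_nonneg (p : V → Submodule F V) (k : ℕ) : ∀ (P : Submodule F V) (u : Fin k → V),
    0 ≤ wt p k P u := by
  induction k with
  | zero => intro P u; simp [wt]
  | succ k ih =>
    intro P u
    simp only [wt]
    split_ifs
    · exact mul_nonneg (by positivity) (ih _ _)
    · exact le_rfl

theorem wt_sum (p : V → Submodule F V) (k : ℕ) : ∀ (P : Submodule F V),
    ∑ u : Fin k → V, wt p k P u = 1 := by
  classical
  induction k with
  | zero => intro P; simp [wt]
  | succ k ih =>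
    intro P
    rw [← (Fin.consEquiv (fun _ : Fin (k + 1) => V)).sum_comp, Fintype.sum_prod_type]
    have h1 : ∀ v : V, ∑ u : (Fin k → V),
        wt p (k + 1) P ((Fin.consEquiv (fun _ : Fin (k + 1) => V)) (v, u)) =
        if v ∈ P then (1 / (Nat.card P : ℝ)) else 0 := by
      intro v
      simp only [wt, Fin.consEquiv, Equiv.coe_fn_mk, Fin.cons_zero, Fin.tail_cons]
      split_ifs
      · rw [← Finset.mul_sum, ih, mul_one]
      · simp
    rw [Finset.sum_congr rfl (fun v _ => h1 v), ← Finset.sum_filter, Finset.sum_const,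
      nsmul_eq_mul]
    have h2 : (univ.filter (fun v => v ∈ P)).card = Nat.card P := by
      rw [Nat.card_eq_fintype_card, Fintype.card_subtype]
    rw [h2]
    have h3 : (0 : ℝ) < Nat.card P := by exact_mod_cast Nat.card_pos
    field_simp

/-- common orthogonal of the first `i` vectors -/
def Q (p : V → Submodule F V) {k : ℕ} (i : ℕ) (u : Fin k → V) : Submodule F V :=
  ⨅ j : Fin k, ⨅ _ : (j : ℕ) < i, p (u j)

theorem Q_succ (p : V → Submodule F V) {k : ℕ} (i : ℕ) (u : Fin (k + 1) → V) :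
    Q p (i + 1) u = p (u 0) ⊓ Q p i (Fin.tail u) := by
  apply le_antisymm
  · refine le_inf ?_ ?_
    · exact iInf_le_of_le 0 (iInf_le_of_le (by simp) le_rfl)
    · refine le_iInf fun j => le_iInf fun hj => ?_
      exact iInf_le_of_le j.succ (iInf_le_of_le (by simpa using hj) le_rfl)
  · refine le_iInf fun j => le_iInf fun hj => ?_
    induction j using Fin.cases with
    | zero => exact inf_le_left
    | succ j =>
      refine inf_le_right.trans ?_
      exact iInf_le_of_le j (iInf_le_of_le (by simpa using hj) le_rfl)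

theorem Q_zero (p : V → Submodule F V) {k : ℕ} (u : Fin k → V) : Q p 0 u = ⊤ := by
  simp [Q]

theorem wt_eq (p : V → Submodule F V) (k : ℕ) : ∀ (P : Submodule F V) (u : Fin k → V),
    (∀ i, u i ∈ P) → (∀ i j, u i ∈ p (u j)) →
    wt p k P u = ∏ i ∈ range k, (1 / (Nat.card ((P ⊓ Q p i u : Submodule F V)) : ℝ)) := by
  induction k with
  | zero => intro P u _ _; simp [wt]
  | succ k ih =>
    intro P u hP hp
    rw [Finset.prod_range_succ', Q_zero, inf_top_eq]
    simp only [wt, if_pos (hP 0)]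
    rw [ih (P ⊓ p (u 0)) (Fin.tail u) (fun i => ⟨hP i.succ, hp i.succ 0⟩)
      (fun i j => hp i.succ j.succ), mul_comm]
    congr 1
    apply Finset.prod_congr rfl
    intro i _
    rw [Q_succ, inf_assoc]

/-- common orthogonal of the vectors from index `i` on -/
def Q' (p : V → Submodule F V) {k : ℕ} (i : ℕ) (u : Fin k → V) : Submodule F V :=
  ⨅ j : Fin k, ⨅ _ : i ≤ (j : ℕ), p (u j)

theorem Q_rev (p : V → Submodule F V) {k : ℕ} (i : ℕ) (hi : i ≤ k) (u : Fin k → V) :
    Q p i (u ∘ Fin.rev) = Q' p (k - i) u := by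
  apply le_antisymm
  · refine le_iInf fun j => le_iInf fun hj => ?_
    refine iInf_le_of_le j.rev (iInf_le_of_le ?_ (by simp))
    have := j.2
    simp only [Fin.val_rev]
    omega
  · refine le_iInf fun j => le_iInf fun hj => ?_
    refine iInf_le_of_le j.rev (iInf_le_of_le ?_ (by simp))
    have := j.2
    simp only [Fin.val_rev]
    omega

theorem Q_inf_Q' (p : V → Submodule F V) {k : ℕ} (i : ℕ) (u : Fin k → V) :
    Q p i u ⊓ Q' p i u = ⨅ j, p (u j) := by
  apply le_antisymm
  · refine le_iInf fun j => ?_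
    rcases lt_or_ge (j : ℕ) i with h | h
    · exact inf_le_left.trans (iInf_le_of_le j (iInf_le_of_le h le_rfl))
    · exact inf_le_right.trans (iInf_le_of_le j (iInf_le_of_le h le_rfl))
  · refine le_inf ?_ ?_
    · exact le_iInf fun j => le_iInf fun _ => iInf_le _ j
    · exact le_iInf fun j => le_iInf fun _ => iInf_le _ j

theorem Q_full (p : V → Submodule F V) {k : ℕ} (u : Fin k → V) :
    Q p k u = ⨅ j, p (u j) := by
  apply le_antisymm
  · exact le_iInf fun j => iInf_le_of_le j (iInf_le_of_le j.2 le_rfl)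
  · exact le_iInf fun j => le_iInf fun _ => iInf_le _ j

theorem iInf_eq_of_span (p : V → Submodule F V) (hs : ∀ v w, w ∈ p v → v ∈ p w)
    (U : Submodule F V) (hU : ∀ w, (∀ v ∈ U, w ∈ p v) ↔ w ∈ U) {k : ℕ} (u : Fin k → V)
    (hu : Submodule.span F (Set.range u) = U) : (⨅ j, p (u j)) = U := by
  ext w
  rw [Submodule.mem_iInf, ← hU w]
  constructor
  · intro h v hv
    have h1 : U ≤ p w := by
      rw [← hu, Submodule.span_le]
      rintro _ ⟨j, rfl⟩
      exact hs _ _ (h j)
    exact hs _ _ (h1 hv)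
  · intro h j
    exact h _ (by rw [← hu]; exact Submodule.subset_span ⟨j, rfl⟩)

theorem pair_dims (p : V → Submodule F V) (hs : ∀ v w, w ∈ p v → v ∈ p w)
    (U : Submodule F V) (hU : ∀ w, (∀ v ∈ U, w ∈ p v) ↔ w ∈ U) (d : ℕ)
    (hd : Module.finrank F U = d) (u : Fin d → V)
    (hu : Submodule.span F (Set.range u) = U) :
    (∑ i ∈ range d, Module.finrank F (Q p i u)) +
      (∑ i ∈ range d, Module.finrank F (Q p i (u ∘ Fin.rev))) + 2 * d ≤
      (d + 1) * (d + Module.finrank F V) := by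
  have hfull : (⨅ j, p (u j)) = U := iInf_eq_of_span p hs U hU u hu
  have hu' : Submodule.span F (Set.range (u ∘ Fin.rev)) = U := by
    rw [Fin.rev_surjective.range_comp]
    exact hu
  have hfull' : (⨅ j, p ((u ∘ Fin.rev) j)) = U := iInf_eq_of_span p hs U hU _ hu'
  have h1 : (∑ i ∈ range (d + 1), Module.finrank F (Q p i u)) =
      (∑ i ∈ range d, Module.finrank F (Q p i u)) + d := by
    rw [Finset.sum_range_succ, Q_full, hfull, hd]
  have h2 : (∑ i ∈ range (d + 1), Module.finrank F (Q p i (u ∘ Fin.rev))) =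
      (∑ i ∈ range d, Module.finrank F (Q p i (u ∘ Fin.rev))) + d := by
    rw [Finset.sum_range_succ, Q_full, hfull', hd]
  have h3 : (∑ i ∈ range (d + 1), Module.finrank F (Q p i (u ∘ Fin.rev))) =
      ∑ i ∈ range (d + 1), Module.finrank F (Q' p i u) := by
    rw [← Finset.sum_range_reflect]
    apply Finset.sum_congr rfl
    intro i hi
    rw [Finset.mem_range] at hi
    have e : d - (d + 1 - 1 - i) = i := by omega
    rw [Q_rev p _ (by omega), e]
  have h4 : ∀ i ∈ range (d + 1), Module.finrank F (Q p i u) + Module.finrank F (Q' p i u) ≤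
      d + Module.finrank F V := by
    intro i _
    have h := Submodule.finrank_sup_add_finrank_inf_eq (Q p i u) (Q' p i u)
    rw [Q_inf_Q', hfull, hd] at h
    have h' := Submodule.finrank_le (Q p i u ⊔ Q' p i u)
    omega
  have h5 := Finset.sum_le_sum h4
  rw [Finset.sum_add_distrib, Finset.sum_const, Finset.card_range, smul_eq_mul] at h5
  omega

theorem wt_pow (p : V → Submodule F V) (k : ℕ) (u : Fin k → V) (h : ∀ i j, u i ∈ p (u j)) :
    wt p k ⊤ u =
      ((Fintype.card F : ℝ) ^ (∑ i ∈ range k, Module.finrank F (Q p i u)))⁻¹ := by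
  rw [wt_eq p k ⊤ u (fun _ => trivial) h, ← Finset.prod_pow_eq_pow_sum, ← Finset.prod_inv_distrib]
  apply Finset.prod_congr rfl
  intro i _
  rw [top_inf_eq, Module.natCard_eq_pow_finrank (K := F), Nat.card_eq_fintype_card, one_div]
  push_cast
  rfl

/-- the number of `d`-tuples spanning `U` -/
theorem card_bases (U : Submodule F V) (d : ℕ) (hd : Module.finrank F U = d) :
    ∏ i : Fin d, ((Fintype.card F) ^ d - (Fintype.card F) ^ (i : ℕ)) ≤
      Nat.card {u : Fin d → V // Submodule.span F (Set.range u) = U} := by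
  have h := card_linearIndependent (K := F) (V := U) (k := d) (by omega)
  rw [hd] at h
  rw [← h]
  refine Nat.card_le_card_of_injective
    (fun s => (⟨fun i => ((s.1 i : U) : V), ?_⟩ :
      {u : Fin d → V // Submodule.span F (Set.range u) = U})) ?_
  · have h1 : Submodule.span F (Set.range s.1) = ⊤ :=
      s.2.span_eq_top_of_card_eq_finrank' (by simp [hd])
    have h2 : Set.range (fun i => ((s.1 i : U) : V)) = U.subtype '' (Set.range s.1) := by
      rw [← Set.range_comp]; rfl
    rw [h2, Submodule.span_image, h1, Submodule.map_top, Submodule.range_subtype]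
  · intro s s' hss
    apply Subtype.ext
    funext i
    have := congrFun (congrArg Subtype.val hss) i
    exact Subtype.ext this

theorem prod_lower (q d : ℕ) (hq : 2 ≤ q) :
    (q : ℝ) ^ (d * d) / 4 ≤ ((∏ i : Fin d, (q ^ d - q ^ (i : ℕ)) : ℕ) : ℝ) := by
  have hq' : (2 : ℝ) ≤ q := by exact_mod_cast hq
  have hq0 : (0 : ℝ) < q := by linarith
  -- rewrite the product
  have h1 : ((∏ i : Fin d, (q ^ d - q ^ (i : ℕ)) : ℕ) : ℝ) =
      (q : ℝ) ^ (d * d) * ∏ j ∈ range d, (1 - ((q : ℝ)⁻¹) ^ (j + 1)) := by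
    push_cast
    have h2 : ∀ i : Fin d, ((q ^ d - q ^ (i : ℕ) : ℕ) : ℝ) =
        (q : ℝ) ^ d * (1 - ((q : ℝ)⁻¹) ^ (d - 1 - (i : ℕ) + 1)) := by
      intro i
      have hi := i.2
      rw [Nat.cast_sub (Nat.pow_le_pow_right (by omega) hi.le)]
      push_cast
      have e : d - 1 - (i : ℕ) + 1 = d - i := by omega
      rw [e, mul_sub, mul_one, inv_pow]
      congr 1
      rw [← div_eq_mul_inv, eq_div_iff (by positivity), ← pow_add]
      congr 1
      omega
    rw [Finset.prod_congr rfl (fun i _ => h2 i), Finset.prod_mul_distrib, Finset.prod_const,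
      Finset.card_univ, Fintype.card_fin, ← pow_mul]
    congr 1
    rw [Finset.prod_range (fun j => (1 - ((q : ℝ)⁻¹) ^ (j + 1)))]
    rw [← Equiv.prod_comp (Fin.revPerm : Equiv.Perm (Fin d))
      (fun i : Fin d => (1 - ((q : ℝ)⁻¹) ^ ((i : ℕ) + 1)))]
    apply Finset.prod_congr rfl
    intro i _
    congr 2
    have := i.2
    simp only [Fin.revPerm_apply, Fin.val_rev]
    omega
  rw [h1, div_eq_mul_inv]
  apply mul_le_mul_of_nonneg_left _ (by positivity)
  -- product bound
  have hinv : (q : ℝ)⁻¹ ≤ 1 / 2 := by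
    rw [inv_le_comm₀ hq0 (by norm_num)]; norm_num; exact hq
  have key : ∀ m : ℕ, (1 : ℝ) / 4 + (1 / 2) ^ (m + 2) ≤
      ∏ j ∈ range (m + 1), (1 - ((q : ℝ)⁻¹) ^ (j + 1)) := by
    intro m
    induction m with
    | zero => simp; norm_num; linarith
    | succ m ih =>
      rw [Finset.prod_range_succ]
      have hp : ((q : ℝ)⁻¹) ^ (m + 1 + 1) ≤ (1 / 2) ^ (m + 2) :=
        pow_le_pow_left₀ (by positivity) hinv _
      have hz : (1 / 2 : ℝ) ^ (m + 2) ≤ 1 / 4 := by
        calc (1 / 2 : ℝ) ^ (m + 2) = (1 / 2) ^ m * (1 / 4) := by rw [pow_add]; norm_num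
          _ ≤ 1 * (1 / 4) := by
            apply mul_le_mul_of_nonneg_right _ (by norm_num)
            exact pow_le_one₀ (by norm_num) (by norm_num)
          _ = 1 / 4 := by ring
      have hz0 : (0 : ℝ) < (1 / 2) ^ (m + 2) := by positivity
      have hb : (1 : ℝ) - (1 / 2) ^ (m + 2) ≤ 1 - ((q : ℝ)⁻¹) ^ (m + 1 + 1) := by linarith
      refine le_trans ?_ (mul_le_mul ih hb (by linarith) (le_trans (by positivity) ih))
      rw [show m + 1 + 2 = (m + 2) + 1 by ring, pow_succ (1 / 2 : ℝ) (m + 2)]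
      set z : ℝ := (1 / 2) ^ (m + 2)
      nlinarith
  cases d with
  | zero => simp; norm_num
  | succ m =>
    refine le_trans ?_ (key m)
    have : (0 : ℝ) < (1 / 2) ^ (m + 2) := by positivity
    linarith [this, (by norm_num : ((4 : ℝ))⁻¹ = 1 / 4)]

/-- The main counting estimate, in the abstract form. -/
theorem count_abstract (p : V → Submodule F V) (hs : ∀ v w, w ∈ p v → v ∈ p w) (d E : ℕ)
    (hE : (d + 1) * (d + Module.finrank F V) = E + 2 * d)
    (A : Finset (Submodule F V))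
    (hA : ∀ U ∈ A, Module.finrank F U = d ∧ ∀ w, (∀ v ∈ U, w ∈ p v) ↔ w ∈ U) :
    (A.card : ℝ) * (((∏ i : Fin d, ((Fintype.card F) ^ d - (Fintype.card F) ^ (i : ℕ)) : ℕ) : ℝ)) *
      Real.sqrt (((Fintype.card F : ℝ) ^ E)⁻¹) ≤ 1 := by
  classical
  have hq1 : (1 : ℝ) ≤ Fintype.card F := by exact_mod_cast Fintype.card_pos
  set c := Real.sqrt (((Fintype.card F : ℝ) ^ E)⁻¹) with hc
  have hc0 : 0 ≤ c := Real.sqrt_nonneg _
  set β : ℕ := ∏ i : Fin d, ((Fintype.card F) ^ d - (Fintype.card F) ^ (i : ℕ)) with hβ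
  let B : Submodule F V → Finset (Fin d → V) := fun U =>
    univ.filter (fun u => Submodule.span F (Set.range u) = U)
  have hBcard : ∀ U ∈ A, (β : ℝ) ≤ (B U).card := by
    intro U hU
    have h := card_bases U d (hA U hU).1
    rw [Nat.card_eq_fintype_card, Fintype.card_subtype] at h
    exact_mod_cast h
  have hBsum : ∀ U ∈ A, (β : ℝ) * c ≤ ∑ u ∈ B U, wt p d ⊤ u := by
    intro U hU
    obtain ⟨hd, hperp⟩ := hA U hU
    have hrev : ∑ u ∈ B U, wt p d ⊤ (u ∘ Fin.rev) = ∑ u ∈ B U, wt p d ⊤ u := by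
      refine Finset.sum_nbij' (fun u => u ∘ Fin.rev) (fun u => u ∘ Fin.rev) ?_ ?_ ?_ ?_ ?_
      · intro u hu
        simp only [B, Finset.mem_filter, Finset.mem_univ, true_and] at hu ⊢
        rw [Fin.rev_surjective.range_comp]; exact hu
      · intro u hu
        simp only [B, Finset.mem_filter, Finset.mem_univ, true_and] at hu ⊢
        rw [Fin.rev_surjective.range_comp]; exact hu
      · intro u _; funext i; simp
      · intro u _; funext i; simp
      · intro u _; rfl
    have hpt : ∀ u ∈ B U, 2 * c ≤ wt p d ⊤ u + wt p d ⊤ (u ∘ Fin.rev) := by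
      intro u hu
      have hu' : Submodule.span F (Set.range u) = U := (Finset.mem_filter.mp hu).2
      have hmem : ∀ i, u i ∈ U := fun i => by
        rw [← hu']; exact Submodule.subset_span ⟨i, rfl⟩
      have horth : ∀ i j, u i ∈ p (u j) := fun i j => (hperp (u i)).mpr (hmem i) _ (hmem j)
      have hw1 := wt_pow p d u horth
      have hw2 := wt_pow p d (u ∘ Fin.rev) (fun i j => horth _ _)
      have hpair := pair_dims p hs U hperp d hd u hu'
      set g1 := ∑ i ∈ range d, Module.finrank F (Q p i u)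
      set g2 := ∑ i ∈ range d, Module.finrank F (Q p i (u ∘ Fin.rev))
      have hgE : g1 + g2 ≤ E := by omega
      have hprod : ((Fintype.card F : ℝ) ^ E)⁻¹ ≤ wt p d ⊤ u * wt p d ⊤ (u ∘ Fin.rev) := by
        rw [hw1, hw2, ← mul_inv, ← pow_add]
        exact inv_anti₀ (by positivity) (pow_le_pow_right₀ hq1 hgE)
      have hc2 : c ^ 2 = ((Fintype.card F : ℝ) ^ E)⁻¹ := Real.sq_sqrt (by positivity)
      have hn1 : 0 ≤ wt p d ⊤ u := wt_nonneg p d _ _
      have hn2 : 0 ≤ wt p d ⊤ (u ∘ Fin.rev) := wt_nonneg p d _ _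
      have hsq : (2 * c) ^ 2 ≤ (wt p d ⊤ u + wt p d ⊤ (u ∘ Fin.rev)) ^ 2 := by
        nlinarith [sq_nonneg (wt p d ⊤ u - wt p d ⊤ (u ∘ Fin.rev))]
      exact le_of_pow_le_pow_left₀ (by norm_num : (2 : ℕ) ≠ 0) (by positivity) hsq
    have hsum := Finset.sum_le_sum hpt
    rw [Finset.sum_add_distrib, hrev, Finset.sum_const, nsmul_eq_mul] at hsum
    have h1 := mul_le_mul_of_nonneg_right (hBcard U hU) hc0
    linarith
  have hdisj : ∀ U ∈ A, ∀ U' ∈ A, U ≠ U' → Disjoint (B U) (B U') := by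
    intro U _ U' _ hne
    rw [Finset.disjoint_left]
    intro u hu hu'
    exact hne ((Finset.mem_filter.mp hu).2.symm.trans (Finset.mem_filter.mp hu').2)
  have htot : ∑ U ∈ A, ∑ u ∈ B U, wt p d ⊤ u ≤ 1 := by
    rw [← Finset.sum_biUnion hdisj, ← wt_sum p d ⊤]
    exact Finset.sum_le_sum_of_subset_of_nonneg (Finset.subset_univ _)
      (fun u _ _ => wt_nonneg p d _ _)
  have h := Finset.sum_le_sum hBsum
  rw [Finset.sum_const, nsmul_eq_mul] at h
  linarith

/-- There are at most `4 q^((d+1)(n-d)/2)` subspaces `U` of dimension `d` with `U^⊥ = U`. -/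
theorem count_abstract' (p : V → Submodule F V) (hs : ∀ v w, w ∈ p v → v ∈ p w) (d : ℕ)
    (hdn : d ≤ Module.finrank F V) (A : Finset (Submodule F V))
    (hA : ∀ U ∈ A, Module.finrank F U = d ∧ ∀ w, (∀ v ∈ U, w ∈ p v) ↔ w ∈ U) :
    (A.card : ℝ) ^ 2 ≤ 16 * (Fintype.card F : ℝ) ^ ((d + 1) * (Module.finrank F V - d)) := by
  obtain ⟨m, hm⟩ := Nat.exists_eq_add_of_le hdn
  have hq1 : (1 : ℝ) ≤ Fintype.card F := by exact_mod_cast Fintype.card_pos
  have h := count_abstract p hs d (2 * (d * d) + (d + 1) * m) (by rw [hm]; ring) A hA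
  have hprod := prod_lower (Fintype.card F) d (Fintype.one_lt_card)
  set q : ℝ := (Fintype.card F : ℝ)
  have hq0 : 0 < q := by linarith
  set β : ℝ := ((∏ i : Fin d, ((Fintype.card F) ^ d - (Fintype.card F) ^ (i : ℕ)) : ℕ) : ℝ)
  have hm' : Module.finrank F V - d = m := by omega
  rw [hm']
  set c := Real.sqrt ((q ^ (2 * (d * d) + (d + 1) * m))⁻¹) with hc
  have hc0 : 0 ≤ c := Real.sqrt_nonneg _
  have hc2 : c ^ 2 = (q ^ (2 * (d * d) + (d + 1) * m))⁻¹ := Real.sq_sqrt (by positivity)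
  have h1 : (A.card : ℝ) * (q ^ (d * d) / 4) * c ≤ 1 := by
    refine le_trans ?_ h
    exact mul_le_mul_of_nonneg_right (mul_le_mul_of_nonneg_left hprod (Nat.cast_nonneg _)) hc0
  have hqd : 0 ≤ q ^ (d * d) / 4 := div_nonneg (pow_nonneg hq0.le _) (by norm_num)
  have h2 : ((A.card : ℝ) * (q ^ (d * d) / 4) * c) ^ 2 ≤ 1 :=
    pow_le_one₀ (mul_nonneg (mul_nonneg (Nat.cast_nonneg _) hqd) hc0) h1
  rw [mul_pow, hc2, mul_inv_le_iff₀ (by positivity), one_mul, pow_add, mul_pow, div_pow,
    ← pow_mul, mul_comm (d * d) 2] at h2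
  have hpos : 0 < q ^ (2 * (d * d)) := by positivity
  have h3 : q ^ (2 * (d * d)) * (A.card : ℝ) ^ 2 ≤
      q ^ (2 * (d * d)) * (16 * q ^ ((d + 1) * m)) := by
    nlinarith
  exact le_of_mul_le_mul_left h3 hpos

end Abstract

section Concrete

variable {F : Type*} [Field F] {n : ℕ}

/-- `𝒜` is an alternating matrix space: `vᵗ A v = 0` for all `A ∈ 𝒜` and all vectors `v`. -/
def IsAlternatingSpace (S : Submodule F (Matrix (Fin n) (Fin n) F)) : Prop :=
  ∀ A ∈ S, ∀ v : Fin n → F, v ⬝ᵥ (A.mulVec v) = 0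

/-- `U` is isotropic for `S`: `uᵗ A w = 0` for all `u, w ∈ U` and all `A ∈ S`. -/
def IsIsotropic (S : Submodule F (Matrix (Fin n) (Fin n) F)) (U : Submodule F (Fin n → F)) :
    Prop :=
  ∀ u ∈ U, ∀ w ∈ U, ∀ A ∈ S, u ⬝ᵥ (A.mulVec w) = 0

/-- `U` is a maximal isotropic space: isotropic and not properly contained in another one. -/
def IsMaximalIsotropic (S : Submodule F (Matrix (Fin n) (Fin n) F))
    (U : Submodule F (Fin n → F)) : Prop :=
  IsIsotropic S U ∧ ∀ W : Submodule F (Fin n → F), IsIsotropic S W → ¬ U < W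

/-- The number of maximal isotropic spaces of `S`. -/
noncomputable def numMaxIso (S : Submodule F (Matrix (Fin n) (Fin n) F)) : ℕ :=
  Nat.card {U : Submodule F (Fin n → F) // IsMaximalIsotropic S U}

/-- The number of maximal isotropic spaces of `S` of dimension `d`. -/
noncomputable def numMaxIsoDim (S : Submodule F (Matrix (Fin n) (Fin n) F)) (d : ℕ) : ℕ :=
  Nat.card {U : Submodule F (Fin n → F) // IsMaximalIsotropic S U ∧ Module.finrank F U = d}

/-- `v^⊥`, the common orthogonal of the vector `v`. -/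
def orth (S : Submodule F (Matrix (Fin n) (Fin n) F)) (v : Fin n → F) :
    Submodule F (Fin n → F) where
  carrier := {w | ∀ A ∈ S, v ⬝ᵥ (A.mulVec w) = 0}
  add_mem' := by
    intro a b ha hb A hA
    rw [Matrix.mulVec_add, dotProduct_add, ha A hA, hb A hA, add_zero]
  zero_mem' := by
    intro A _
    rw [Matrix.mulVec_zero, dotProduct_zero]
  smul_mem' := by
    intro c x hx A hA
    rw [Matrix.mulVec_smul, dotProduct_smul, hx A hA, smul_zero]

theorem mem_orth {S : Submodule F (Matrix (Fin n) (Fin n) F)} {v w : Fin n → F} :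
    w ∈ orth S v ↔ ∀ A ∈ S, v ⬝ᵥ (A.mulVec w) = 0 := Iff.rfl

theorem orth_symm {S : Submodule F (Matrix (Fin n) (Fin n) F)} (hS : IsAlternatingSpace S)
    (v w : Fin n → F) (h : w ∈ orth S v) : v ∈ orth S w := by
  intro A hA
  have h1 := hS A hA (v + w)
  rw [Matrix.mulVec_add, dotProduct_add, add_dotProduct, add_dotProduct, hS A hA v, hS A hA w,
    h A hA, zero_add, zero_add, add_zero] at h1
  exact h1

theorem perp_of_maximal {S : Submodule F (Matrix (Fin n) (Fin n) F)} (hS : IsAlternatingSpace S)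
    (U : Submodule F (Fin n → F)) (hU : IsMaximalIsotropic S U) (w : Fin n → F) :
    (∀ v ∈ U, w ∈ orth S v) ↔ w ∈ U := by
  constructor
  · intro h
    by_contra hw
    apply hU.2 (U ⊔ Submodule.span F {w})
    · intro x hx y hy A hA
      rw [Submodule.mem_sup] at hx hy
      obtain ⟨x1, hx1, x2, hx2, rfl⟩ := hx
      obtain ⟨y1, hy1, y2, hy2, rfl⟩ := hy
      obtain ⟨a, rfl⟩ := Submodule.mem_span_singleton.mp hx2
      obtain ⟨b, rfl⟩ := Submodule.mem_span_singleton.mp hy2
      have e1 := hU.1 x1 hx1 y1 hy1 A hA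
      have e2 := h x1 hx1 A hA
      have e3 := orth_symm hS y1 w (h y1 hy1) A hA
      have e4 := hS A hA w
      rw [Matrix.mulVec_add, dotProduct_add, add_dotProduct, add_dotProduct,
        Matrix.mulVec_smul, dotProduct_smul, dotProduct_smul, smul_dotProduct, smul_dotProduct,
        e1, e2, e3, e4]
      simp
    · refine lt_of_le_of_ne le_sup_left ?_
      intro heq
      apply hw
      rw [heq]
      exact Submodule.mem_sup_right (Submodule.mem_span_singleton_self w)
  · intro hw v hv A hA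
    exact hU.1 v hv w hw A hA

variable [Fintype F]

/-- The number of maximal isotropic spaces of dimension `d` is at most
`4 q^((d+1)(n-d)/2)`. -/
theorem numMaxIsoDim_sq_le {S : Submodule F (Matrix (Fin n) (Fin n) F)}
    (hS : IsAlternatingSpace S) (d : ℕ) (hd : d ≤ n) :
    (numMaxIsoDim S d : ℝ) ^ 2 ≤ 16 * (Fintype.card F : ℝ) ^ ((d + 1) * (n - d)) := by
  classical
  let A : Finset (Submodule F (Fin n → F)) :=
    univ.filter (fun U => IsMaximalIsotropic S U ∧ Module.finrank F U = d)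
  have hcard : numMaxIsoDim S d = A.card := by
    rw [numMaxIsoDim, Nat.card_eq_fintype_card, Fintype.card_subtype]
  have h := count_abstract' (F := F) (V := Fin n → F) (orth S) (orth_symm hS) d
    (by simpa using hd) A (fun U hU => by
      have := (Finset.mem_filter.mp hU).2
      exact ⟨this.2, perp_of_maximal hS U this.1⟩)
  rw [hcard]
  simpa using h

/-- `M(n,q)`: the maximum number of maximal isotropic spaces of an alternating matrix space
in `Λ(n,q)`, `q = |F|`. -/
noncomputable def maxNumMaxIso (F : Type*) [Field F] (n : ℕ) : ℕ :=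
  sSup {k : ℕ | ∃ S : Submodule F (Matrix (Fin n) (Fin n) F),
    IsAlternatingSpace S ∧ numMaxIso S = k}

theorem sum_aux (n : ℕ) :
    ∑ d ∈ range (n + 1), (2 : ℝ) ^ (-((2 * (d : ℝ) - n + 1) ^ 2) / 8) ≤ 5 := by
  set m := n / 2 with hm
  have hsplit : n + 1 = m + (n + 1 - m) := by omega
  rw [hsplit, Finset.sum_range_add]
  have hgeo := fun k => sum_geometric_two_le k
  -- first half
  have h1 : ∑ d ∈ range m, (2 : ℝ) ^ (-((2 * (d : ℝ) - n + 1) ^ 2) / 8) ≤ 2 := by
    rw [← Finset.sum_range_reflect]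
    refine le_trans (Finset.sum_le_sum ?_) (hgeo m)
    intro j hj
    rw [Finset.mem_range] at hj
    have hnj : (2 : ℝ) * ((m - 1 - j : ℕ) : ℝ) - n + 1 ≤ -(2 * (j : ℝ) + 1) := by
      have : 2 * (m - 1 - j) + 1 + (2 * j + 1) ≤ n := by omega
      have h' : (2 : ℝ) * ((m - 1 - j : ℕ) : ℝ) + 1 + (2 * (j : ℝ) + 1) ≤ n := by
        exact_mod_cast this
      linarith
    have hj0 : (0 : ℝ) ≤ j := by positivity
    have hjj : (j : ℝ) ≤ (j : ℝ) ^ 2 := by
      have : j ≤ j ^ 2 := Nat.le_self_pow (by norm_num) j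
      exact_mod_cast this
    have hsq : 8 * (j : ℝ) ≤ (2 * ((m - 1 - j : ℕ) : ℝ) - n + 1) ^ 2 := by
      nlinarith
    calc (2 : ℝ) ^ (-((2 * ((m - 1 - j : ℕ) : ℝ) - n + 1) ^ 2) / 8)
        ≤ (2 : ℝ) ^ (-(j : ℝ)) := by
          apply Real.rpow_le_rpow_of_exponent_le (by norm_num)
          linarith
      _ = (1 / 2) ^ j := by
          rw [Real.rpow_neg (by norm_num), Real.rpow_natCast, one_div, inv_pow]
  have h2 : ∑ j ∈ range (n + 1 - m), (2 : ℝ) ^ (-((2 * ((m + j : ℕ) : ℝ) - n + 1) ^ 2) / 8)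
      ≤ 3 := by
    have h3 : ∀ j ∈ range (n + 1 - m), (2 : ℝ) ^ (-((2 * ((m + j : ℕ) : ℝ) - n + 1) ^ 2) / 8)
        ≤ (3 / 2) * (1 / 2) ^ j := by
      intro j _
      have hj0 : (0 : ℝ) ≤ j := by positivity
      have hnj : 2 * (j : ℝ) ≤ (2 : ℝ) * ((m + j : ℕ) : ℝ) - n + 1 := by
        have : 2 * j + n ≤ 2 * (m + j) + 1 := by omega
        have h' : (2 : ℝ) * (j : ℝ) + n ≤ 2 * ((m + j : ℕ) : ℝ) + 1 := by exact_mod_cast this
        linarith
      have hsq : 8 * (j : ℝ) - 4 ≤ (2 * ((m + j : ℕ) : ℝ) - n + 1) ^ 2 := by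
        nlinarith [sq_nonneg ((j : ℝ) - 1)]
      calc (2 : ℝ) ^ (-((2 * ((m + j : ℕ) : ℝ) - n + 1) ^ 2) / 8)
          ≤ (2 : ℝ) ^ ((1 / 2 : ℝ) + (-(j : ℝ))) := by
            apply Real.rpow_le_rpow_of_exponent_le (by norm_num)
            linarith
        _ = (2 : ℝ) ^ (1 / 2 : ℝ) * (1 / 2) ^ j := by
            rw [Real.rpow_add (by norm_num), Real.rpow_neg (by norm_num), Real.rpow_natCast,
              one_div, inv_pow]
        _ ≤ (3 / 2) * (1 / 2) ^ j := by
            apply mul_le_mul_of_nonneg_right _ (by positivity)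
            rw [← Real.sqrt_eq_rpow]
            rw [Real.sqrt_le_left (by norm_num)]
            norm_num
    refine le_trans (Finset.sum_le_sum h3) ?_
    rw [← Finset.mul_sum]
    have := hgeo (n + 1 - m)
    linarith
  linarith

theorem numMaxIso_eq_sum (S : Submodule F (Matrix (Fin n) (Fin n) F)) :
    numMaxIso S = ∑ d ∈ range (n + 1), numMaxIsoDim S d := by
  classical
  have h1 : numMaxIso S =
      (univ.filter (fun U : Submodule F (Fin n → F) => IsMaximalIsotropic S U)).card := by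
    rw [numMaxIso, Nat.card_eq_fintype_card, Fintype.card_subtype]
  rw [h1, Finset.card_eq_sum_card_fiberwise
    (f := fun U : Submodule F (Fin n → F) => Module.finrank F U)
    (t := range (n + 1))]
  · apply Finset.sum_congr rfl
    intro d _
    rw [numMaxIsoDim, Nat.card_eq_fintype_card, Fintype.card_subtype, Finset.filter_filter]
  · intro U _
    have := Submodule.finrank_le U
    simp only [Module.finrank_fin_fun] at this
    simp only [Finset.coe_range, Set.mem_Iio]
    omega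

theorem numMaxIso_le {S : Submodule F (Matrix (Fin n) (Fin n) F)}
    (hS : IsAlternatingSpace S) :
    (numMaxIso S : ℝ) ≤ 20 * (Fintype.card F : ℝ) ^ (((n : ℝ) + 1) ^ 2 / 8) := by
  have hq2 : (2 : ℝ) ≤ Fintype.card F := by exact_mod_cast Fintype.one_lt_card (α := F)
  have hq0 : (0 : ℝ) < Fintype.card F := by linarith
  rw [numMaxIso_eq_sum]
  push_cast
  have h1 : ∀ d ∈ range (n + 1), (numMaxIsoDim S d : ℝ) ≤
      4 * (Fintype.card F : ℝ) ^ (((n : ℝ) + 1) ^ 2 / 8) *
        (2 : ℝ) ^ (-((2 * (d : ℝ) - n + 1) ^ 2) / 8) := by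
    intro d hd
    rw [Finset.mem_range] at hd
    have hdn : d ≤ n := by omega
    have h := numMaxIsoDim_sq_le hS d hdn
    have hE : (((d + 1) * (n - d) : ℕ) : ℝ) = (((n : ℝ) + 1) ^ 2 / 8 +
        -((2 * (d : ℝ) - n + 1) ^ 2) / 8) * 2 := by
      rw [Nat.cast_mul, Nat.cast_sub hdn]; push_cast; ring
    have h2 : (numMaxIsoDim S d : ℝ) ≤ 4 * (Fintype.card F : ℝ) ^ (((n : ℝ) + 1) ^ 2 / 8 +
        -((2 * (d : ℝ) - n + 1) ^ 2) / 8) := by
      refine le_of_pow_le_pow_left₀ (by norm_num : (2 : ℕ) ≠ 0) (by positivity) ?_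
      refine le_trans h (le_of_eq ?_)
      rw [mul_pow, ← Real.rpow_natCast _ ((d + 1) * (n - d)), hE,
        Real.rpow_mul hq0.le, Real.rpow_two]
      norm_num
    refine le_trans h2 ?_
    rw [Real.rpow_add hq0, ← mul_assoc]
    apply mul_le_mul_of_nonneg_left _ (by positivity)
    apply Real.rpow_le_rpow_of_nonpos (by norm_num) hq2
    have := sq_nonneg (2 * (d : ℝ) - n + 1)
    linarith
  refine le_trans (Finset.sum_le_sum h1) ?_
  rw [← Finset.mul_sum]
  have h5 := sum_aux n
  have h6 : (0 : ℝ) ≤ 4 * (Fintype.card F : ℝ) ^ (((n : ℝ) + 1) ^ 2 / 8) := by positivity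
  have := mul_le_mul_of_nonneg_left h5 h6
  linarith

theorem maxNumMaxIso_le :
    (maxNumMaxIso F n : ℝ) ≤ 20 * (Fintype.card F : ℝ) ^ (((n : ℝ) + 1) ^ 2 / 8) := by
  have hne : {k : ℕ | ∃ S : Submodule F (Matrix (Fin n) (Fin n) F),
      IsAlternatingSpace S ∧ numMaxIso S = k}.Nonempty := by
    refine ⟨numMaxIso (⊥ : Submodule F (Matrix (Fin n) (Fin n) F)), ⊥, ?_, rfl⟩
    intro A hA v
    rw [Submodule.mem_bot] at hA
    subst hA
    simp
  have hbdd : BddAbove {k : ℕ | ∃ S : Submodule F (Matrix (Fin n) (Fin n) F),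
      IsAlternatingSpace S ∧ numMaxIso S = k} := by
    refine ⟨Nat.card (Submodule F (Fin n → F)), ?_⟩
    rintro k ⟨S, _, rfl⟩
    exact Nat.card_le_card_of_injective _ Subtype.val_injective
  obtain ⟨S, hS, hk⟩ := Nat.sSup_mem hne hbdd
  rw [maxNumMaxIso, ← hk]
  exact numMaxIso_le hS

end Concrete

section Lower

variable {F : Type*} [Field F] {n m : ℕ}

/-- index of the `i`-th coordinate of the first block -/
def ia (h : 2 * m ≤ n) (i : Fin m) : Fin n := ⟨i, by have := i.2; omega⟩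

/-- index of the `i`-th coordinate of the second block -/
def ib (h : 2 * m ≤ n) (i : Fin m) : Fin n := ⟨m + i, by have := i.2; omega⟩

/-- the standard alternating matrix of rank `2m` -/
def J (F : Type*) [Field F] (h : 2 * m ≤ n) : Matrix (Fin n) (Fin n) F :=
  ∑ i : Fin m, (Matrix.vecMulVec (Pi.single (ia h i) 1) (Pi.single (ib h i) 1) -
    Matrix.vecMulVec (Pi.single (ib h i) 1) (Pi.single (ia h i) 1))

theorem J_form (h : 2 * m ≤ n) (v w : Fin n → F) :
    v ⬝ᵥ ((J F h).mulVec w) = ∑ i : Fin m, (v (ia h i) * w (ib h i) - v (ib h i) * w (ia h i)) := by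
  simp only [J, Matrix.sum_mulVec, Matrix.sub_mulVec, dotProduct_sum, dotProduct_sub,
    Matrix.vecMulVec_mulVec]
  apply Finset.sum_congr rfl
  intro i _
  simp
  ring

theorem span_J_form (h : 2 * m ≤ n) (v w : Fin n → F)
    (h0 : ∑ i : Fin m, (v (ia h i) * w (ib h i) - v (ib h i) * w (ia h i)) = 0) :
    ∀ A ∈ Submodule.span F {J F h}, v ⬝ᵥ (A.mulVec w) = 0 := by
  intro A hA
  obtain ⟨c, rfl⟩ := Submodule.mem_span_singleton.mp hA
  rw [Matrix.smul_mulVec, dotProduct_smul, J_form, h0, smul_zero]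

theorem span_J_alt (h : 2 * m ≤ n) : IsAlternatingSpace (Submodule.span F {J F h}) := by
  intro A hA v
  refine span_J_form h v v ?_ A hA
  apply Finset.sum_eq_zero
  intro i _
  ring

/-- the graph of the symmetric matrix given by `f` -/
def L (h : 2 * m ≤ n) (f : Sym2 (Fin m) → F) : Submodule F (Fin n → F) where
  carrier := {v | ∀ i, v (ib h i) = ∑ j, f s(i, j) * v (ia h j)}
  add_mem' := by
    intro v w hv hw i
    simp only [Pi.add_apply, mul_add, Finset.sum_add_distrib]
    rw [hv i, hw i]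
  zero_mem' := by
    intro i
    simp
  smul_mem' := by
    intro c v hv i
    simp only [Pi.smul_apply, smul_eq_mul]
    rw [hv i, Finset.mul_sum]
    apply Finset.sum_congr rfl
    intro j _
    ring

theorem mem_L {h : 2 * m ≤ n} {f : Sym2 (Fin m) → F} {v : Fin n → F} :
    v ∈ L h f ↔ ∀ i, v (ib h i) = ∑ j, f s(i, j) * v (ia h j) := Iff.rfl

theorem L_iso (h : 2 * m ≤ n) (f : Sym2 (Fin m) → F) :
    IsIsotropic (Submodule.span F {J F h}) (L h f) := by
  intro v hv w hw
  refine span_J_form h v w ?_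
  rw [Finset.sum_sub_distrib]
  have h1 : ∑ i : Fin m, v (ia h i) * w (ib h i) =
      ∑ i : Fin m, ∑ j : Fin m, f s(i, j) * (v (ia h i) * w (ia h j)) := by
    apply Finset.sum_congr rfl
    intro i _
    rw [hw i, Finset.mul_sum]
    apply Finset.sum_congr rfl
    intro j _
    ring
  have h2 : ∑ i : Fin m, v (ib h i) * w (ia h i) =
      ∑ i : Fin m, ∑ j : Fin m, f s(i, j) * (v (ia h i) * w (ia h j)) := by
    rw [Finset.sum_comm]
    apply Finset.sum_congr rfl
    intro i _
    rw [hv i, Finset.sum_mul]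
    apply Finset.sum_congr rfl
    intro j _
    rw [Sym2.eq_swap]
    ring
  rw [h1, h2, sub_self]

/-- test vector -/
def tv (f : Sym2 (Fin m) → F) (n : ℕ) (j : Fin m) : Fin n → F := fun x =>
  if (x : ℕ) < m then (if (x : ℕ) = j then 1 else 0)
  else if hx : (x : ℕ) - m < m then f s(⟨(x : ℕ) - m, hx⟩, j) else 0

theorem tv_ia (h : 2 * m ≤ n) (f : Sym2 (Fin m) → F) (j i : Fin m) :
    tv f n j (ia h i) = if i = j then 1 else 0 := by
  have := i.2
  simp [tv, ia, Fin.ext_iff]

theorem tv_ib (h : 2 * m ≤ n) (f : Sym2 (Fin m) → F) (j i : Fin m) :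
    tv f n j (ib h i) = f s(i, j) := by
  have := i.2
  simp [tv, ib]

theorem tv_mem (h : 2 * m ≤ n) (f : Sym2 (Fin m) → F) (j : Fin m) : tv f n j ∈ L h f := by
  intro i
  simp [tv_ia, tv_ib]

theorem L_max (h : 2 * m ≤ n) (f : Sym2 (Fin m) → F) :
    IsMaximalIsotropic (Submodule.span F {J F h}) (L h f) := by
  refine ⟨L_iso h f, ?_⟩
  intro W hW hlt
  apply hlt.not_ge
  intro w hw j
  have h1 := hW (tv f n j) (hlt.le (tv_mem h f j)) w hw (J F h)
    (Submodule.mem_span_singleton_self _)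
  rw [J_form, Finset.sum_sub_distrib] at h1
  simp only [tv_ia, tv_ib, ite_mul, one_mul, zero_mul, Finset.sum_ite_eq', Finset.mem_univ,
    if_true] at h1
  rw [sub_eq_zero] at h1
  rw [h1]
  apply Finset.sum_congr rfl
  intro i _
  rw [Sym2.eq_swap]

theorem L_inj (h : 2 * m ≤ n) : Function.Injective (L h : (Sym2 (Fin m) → F) → _) := by
  intro f f' hff
  have h1 : ∀ j, tv f n j ∈ L h f' := fun j => by rw [← hff]; exact tv_mem h f j
  funext e
  induction e using Sym2.ind with
  | _ i j =>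
    have h2 := h1 j i
    simpa [tv_ia, tv_ib] using h2

theorem le_maxNumMaxIso [Fintype F] (h : 2 * m ≤ n) :
    (Fintype.card F) ^ (m * (m + 1) / 2) ≤ maxNumMaxIso F n := by
  classical
  have hbdd : BddAbove {k : ℕ | ∃ S : Submodule F (Matrix (Fin n) (Fin n) F),
      IsAlternatingSpace S ∧ numMaxIso S = k} := by
    refine ⟨Nat.card (Submodule F (Fin n → F)), ?_⟩
    rintro k ⟨S, _, rfl⟩
    exact Nat.card_le_card_of_injective _ Subtype.val_injective
  refine le_trans ?_ (le_csSup hbdd ⟨Submodule.span F {J F h}, span_J_alt h, rfl⟩)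
  have h1 : Nat.card (Sym2 (Fin m) → F) ≤ numMaxIso (Submodule.span F {J F h}) := by
    refine Nat.card_le_card_of_injective
      (fun f => (⟨L h f, L_max h f⟩ : {U : Submodule F (Fin n → F) //
        IsMaximalIsotropic (Submodule.span F {J F h}) U})) ?_
    intro f f' hff
    exact L_inj h (congrArg Subtype.val hff)
  refine le_trans (le_of_eq ?_) h1
  rw [Nat.card_eq_fintype_card, Fintype.card_fun, Sym2.card, Fintype.card_fin,
    Nat.choose_two_right]
  congr 2
  rw [Nat.add_sub_cancel, mul_comm]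

end Lower

/-- Main theorem: the growth of `M(n,q)` is `q^(n²/8 + O(n))`, with the order of magnitude
`q^(n²/8 + n/4)` up to a constant factor when `n` is even, and the bound
`4 q^((d+1)(n-d)/2)` for the number of maximal isotropic spaces of dimension `d`. -/
theorem result (F : Type*) [Field F] [Fintype F] (n : ℕ) :
    (Fintype.card F : ℝ) ^ (((n : ℝ) ^ 2 - 1) / 8) ≤ maxNumMaxIso F n ∧
    (maxNumMaxIso F n : ℝ) ≤ 20 * (Fintype.card F : ℝ) ^ (((n : ℝ) + 1) ^ 2 / 8) ∧
    (∀ m : ℕ, n = 2 * m →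
      (Fintype.card F : ℝ) ^ ((m : ℝ) * (m + 1) / 2) ≤ maxNumMaxIso F n ∧
      (maxNumMaxIso F n : ℝ) ≤
        20 * (Fintype.card F : ℝ) ^ ((1 : ℝ) / 8) * (Fintype.card F : ℝ) ^ ((m : ℝ) * (m + 1) / 2)) ∧
    (∀ S : Submodule F (Matrix (Fin n) (Fin n) F), IsAlternatingSpace S → ∀ d ≤ n,
      (numMaxIsoDim S d : ℝ) ≤
        4 * (Fintype.card F : ℝ) ^ (((d : ℝ) + 1) * ((n : ℝ) - d) / 2)) := by
  have hq2 : (2 : ℝ) ≤ Fintype.card F := by exact_mod_cast Fintype.one_lt_card (α := F)
  have hq0 : (0 : ℝ) < Fintype.card F := by linarith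
  have hlow : ∀ m : ℕ, 2 * m ≤ n →
      (Fintype.card F : ℝ) ^ ((m : ℝ) * (m + 1) / 2) ≤ maxNumMaxIso F n := by
    intro m hm
    have h1 : (((Fintype.card F) ^ (m * (m + 1) / 2) : ℕ) : ℝ) ≤ maxNumMaxIso F n := by
      exact_mod_cast le_maxNumMaxIso (F := F) hm
    refine le_trans (le_of_eq ?_) h1
    push_cast
    rw [← Real.rpow_natCast]
    congr 1
    have h2 : 2 ∣ m * (m + 1) := (Nat.even_mul_succ_self m).two_dvd
    rw [Nat.cast_div h2 (by norm_num)]
    push_cast
    ring
  refine ⟨?_, maxNumMaxIso_le, ?_, ?_⟩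
  · refine le_trans ?_ (hlow (n / 2) (by omega))
    apply Real.rpow_le_rpow_of_exponent_le (by linarith)
    have h1 : n ≤ 2 * (n / 2) + 1 := by omega
    have h2 : (n : ℝ) ≤ 2 * ((n / 2 : ℕ) : ℝ) + 1 := by exact_mod_cast h1
    have h3 : (0 : ℝ) ≤ n := by positivity
    nlinarith
  · rintro m rfl
    refine ⟨hlow m le_rfl, ?_⟩
    refine le_trans maxNumMaxIso_le (le_of_eq ?_)
    rw [mul_assoc, ← Real.rpow_add hq0]
    congr 2
    push_cast
    ring
  · intro S hS d hd
    have h := numMaxIsoDim_sq_le hS d hd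
    refine le_of_pow_le_pow_left₀ (by norm_num : (2 : ℕ) ≠ 0) (by positivity) ?_
    refine le_trans h (le_of_eq ?_)
    have hE : (((d + 1) * (n - d) : ℕ) : ℝ) = (((d : ℝ) + 1) * ((n : ℝ) - d) / 2) * 2 := by
      rw [Nat.cast_mul, Nat.cast_sub hd]; push_cast; ring
    rw [mul_pow, ← Real.rpow_natCast _ ((d + 1) * (n - d)), hE, Real.rpow_mul hq0.le,
      Real.rpow_two]
    norm_num

end Pool.Agent.Results.MP_cd3971_co.ExponentEighth
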